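import Mathlib

set_option autoImplicit false

/-!
helper984: Godbersen's inequality `V(K[j], -K[n-j]) ≤ C(n,j) vol K` for all convex bodies.
Definitions and statements of the separate tasks.
-/

open MeasureTheory Set Pointwise Matrix

namespace Pool.Agent.TH984.GB

/-- the rows of the three matrices `N`, `A`, `B` -/
def pick {ι : Type} (N A B : Matrix ι ι ℝ) (k : Fin 3) : Matrix ι ι ℝ := ![N, A, B] k

/-- coefficient of `s ^ j * t ^ l` in `det (N + s A + t B)` -/
noncomputable def Coef {ι : Type} [Fintype ι] [DecidableEq ι] (N A B : Matrix ι ι ℝ) (j l : ℕ) : ℝ :=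
  ∑ f : ι → Fin 3,
    if (Finset.univ.filter fun i => f i = 1).card = j ∧
        (Finset.univ.filter fun i => f i = 2).card = l then
      (Matrix.of fun i => pick N A B (f i) i).det else 0

/-- COEF-1: expansion of the determinant -/
def S_EXP : Prop := ∀ (ι : Type) [Fintype ι] [DecidableEq ι] (N A B : Matrix ι ι ℝ) (s t : ℝ),
  (N + s • A + t • B).det = ∑ j ∈ Finset.range (Fintype.card ι + 1),
    ∑ l ∈ Finset.range (Fintype.card ι + 1), s ^ j * t ^ l * Coef N A B j l

/-- COEF-2: the coefficients are nonnegative for positive semidefinite matrices -/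
def S_NN : Prop := ∀ (ι : Type) [Fintype ι] [DecidableEq ι] (N A B : Matrix ι ι ℝ),
  N.PosSemidef → A.PosSemidef → B.PosSemidef → ∀ j l : ℕ, 0 ≤ Coef N A B j l

/-- COEF-3: the middle coefficients of the block determinant -/
def S_BLOCK : Prop := ∀ (n : ℕ) (P Q Z : Matrix (Fin n) (Fin n) ℝ) (j : ℕ), j ≤ n →
  Coef (Matrix.fromBlocks Z Z Z Z) (Matrix.fromBlocks P 0 0 0) (Matrix.fromBlocks 0 0 0 Q)
    j (n - j) = Z.det * Coef 0 P Q j (n - j)

/-- UNIQ: uniqueness of the coefficients of a polynomial in two nonnegative variables -/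
def S_UNIQ : Prop := ∀ (m : ℕ) (a b : ℕ → ℕ → ℝ),
  (∀ s t : ℝ, 0 ≤ s → 0 ≤ t →
    ∑ j ∈ Finset.range (m + 1), ∑ l ∈ Finset.range (m + 1), s ^ j * t ^ l * a j l =
    ∑ j ∈ Finset.range (m + 1), ∑ l ∈ Finset.range (m + 1), s ^ j * t ^ l * b j l) →
  ∀ j l : ℕ, j ≤ m → l ≤ m → a j l = b j l

/-- SIMPLEX: lower bound for the volume of `a Δ - b Δ` -/
def S_SIMPLEX : Prop := ∀ (n : ℕ) (v : Fin (n + 1) → EuclideanSpace ℝ (Fin n)),
  AffineIndependent ℝ v → ∀ a b : ℝ, 0 ≤ a → 0 ≤ b →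
  ENNReal.ofReal (∑ i ∈ Finset.range (n + 1), (n.choose i : ℝ) ^ 2 * a ^ i * b ^ (n - i)) *
      volume (convexHull ℝ (Set.range v)) ≤
    volume (a • convexHull ℝ (Set.range v) - b • convexHull ℝ (Set.range v))

end Pool.Agent.TH984.GB
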