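import Mathlib
import Pool.Agent.TH984.GB.Defs

/-!
# The volume of `a Δ - b Δ` for a simplex `Δ`

Copy of helper416's file `TH416/GB_Simplex.lean` (job GB984-SIMPLEX) with one proof changed.

The lemmas on `Sx` and `Sc` are copied from `Pool.Agent.H712R2.MA.S` and
`Pool.Agent.H404R2.TH.TTET`.
-/

set_option autoImplicit false

noncomputable section

open MeasureTheory Filter Topology Set Pointwise
open scoped BigOperators ENNReal

namespace Pool.Agent.TH984.GBS

/-- the open/closed simplex -/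
def Sx (n : ℕ) (v : ℝ) : Set (Fin n → ℝ) := {s | (∀ i, 0 < s i) ∧ ∑ i, s i ≤ v}

lemma meas_Sx (n : ℕ) (v : ℝ) : MeasurableSet (Sx n v) := by
  have h1 : MeasurableSet {s : Fin n → ℝ | ∀ i, 0 < s i} := by
    rw [show {s : Fin n → ℝ | ∀ i, 0 < s i} = ⋂ i, {s | 0 < s i} by ext; simp]
    exact MeasurableSet.iInter fun i => measurableSet_lt measurable_const (measurable_pi_apply i)
  have h2 : MeasurableSet {s : Fin n → ℝ | ∑ i, s i ≤ v} :=
    measurableSet_le (Finset.measurable_sum _ fun i _ => measurable_pi_apply i) measurable_const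
  exact h1.inter h2

lemma vol_Sx (n : ℕ) : ∀ v : ℝ, 0 ≤ v → volume (Sx n v) = ENNReal.ofReal (v ^ n / n.factorial) := by
  induction n with
  | zero =>
    intro v hv
    have h : Sx 0 v = Set.univ := by
      ext s
      simp [Sx, hv]
    rw [h]
    simp [volume_pi]
  | succ n ih =>
    intro v hv
    have hmp := (volume_preserving_piFinSuccAbove (fun _ : Fin (n+1) => ℝ) 0)
    have hset : Sx (n+1) v = (MeasurableEquiv.piFinSuccAbove (fun _ : Fin (n+1) => ℝ) 0) ⁻¹'
        {p : ℝ × (Fin n → ℝ) | 0 < p.1 ∧ p.2 ∈ Sx n (v - p.1)} := by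
      ext s
      simp only [Sx, Set.mem_ofPred_eq, Set.mem_preimage, Fin.forall_fin_succ, Fin.sum_univ_succ]
      simp only [MeasurableEquiv.piFinSuccAbove_apply, Fin.insertNthEquiv_symm_apply,
        Fin.removeNth_zero, Fin.tail]
      constructor
      · rintro ⟨⟨h1, h2⟩, h3⟩
        exact ⟨h1, h2, by linarith⟩
      · rintro ⟨h1, h2, h3⟩
        exact ⟨⟨h1, h2⟩, by linarith⟩
    have hms : MeasurableSet {p : ℝ × (Fin n → ℝ) | 0 < p.1 ∧ p.2 ∈ Sx n (v - p.1)} := by
      have h1 : MeasurableSet {p : ℝ × (Fin n → ℝ) | 0 < p.1} :=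
        measurableSet_lt measurable_const measurable_fst
      have h2 : MeasurableSet {p : ℝ × (Fin n → ℝ) | ∀ i, 0 < p.2 i} := by
        rw [show {p : ℝ × (Fin n → ℝ) | ∀ i, 0 < p.2 i} = ⋂ i, {p | 0 < p.2 i} by ext; simp]
        exact MeasurableSet.iInter fun i => measurableSet_lt measurable_const
          ((measurable_pi_apply i).comp measurable_snd)
      have h3 : MeasurableSet {p : ℝ × (Fin n → ℝ) | ∑ i, p.2 i ≤ v - p.1} :=
        measurableSet_le (Finset.measurable_sum _ fun i _ =>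
          (measurable_pi_apply i).comp measurable_snd) (measurable_const.sub measurable_fst)
      exact h1.inter (h2.inter h3)
    rw [hset, hmp.measure_preimage hms.nullMeasurableSet, Measure.volume_eq_prod, Measure.prod_apply hms]
    have hsl : ∀ t : ℝ, volume (Prod.mk t ⁻¹' {p : ℝ × (Fin n → ℝ) | 0 < p.1 ∧ p.2 ∈ Sx n (v - p.1)}) =
        (Set.Ioc 0 v).indicator (fun t => ENNReal.ofReal ((v - t) ^ n / n.factorial)) t := by
      intro t
      by_cases ht : t ∈ Set.Ioc 0 v
      · rw [Set.indicator_of_mem ht, ← ih (v - t) (by linarith [ht.2])]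
        congr 1
        ext s
        simp [ht.1]
      · rw [Set.indicator_of_notMem ht]
        by_cases h0 : 0 < t
        · have hv' : v < t := by
            by_contra h
            exact ht ⟨h0, not_lt.1 h⟩
          have : Prod.mk t ⁻¹' {p : ℝ × (Fin n → ℝ) | 0 < p.1 ∧ p.2 ∈ Sx n (v - p.1)} = ∅ := by
            ext s
            simp only [Set.mem_preimage, Set.mem_ofPred_eq, Sx, Set.mem_empty_iff_false, iff_false,
              not_and, not_le]
            intro _ hs
            have : 0 ≤ ∑ i, s i := Finset.sum_nonneg fun i _ => (hs i).le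
            linarith
          rw [this, measure_empty]
        · have : Prod.mk t ⁻¹' {p : ℝ × (Fin n → ℝ) | 0 < p.1 ∧ p.2 ∈ Sx n (v - p.1)} = ∅ := by
            ext s
            simp [h0]
          rw [this, measure_empty]
    simp_rw [hsl]
    rw [lintegral_indicator measurableSet_Ioc]
    have hint : IntervalIntegrable (fun t : ℝ => (v - t) ^ n / n.factorial) volume 0 v := by
      apply Continuous.intervalIntegrable
      fun_prop
    rw [← ofReal_integral_eq_lintegral_ofReal]
    · rw [← intervalIntegral.integral_of_le hv]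
      congr 1
      have h := intervalIntegral.integral_comp_sub_left (a := 0) (b := v)
        (fun t : ℝ => t ^ n / n.factorial) v
      rw [h]
      simp only [sub_self, sub_zero]
      rw [intervalIntegral.integral_div, integral_pow]
      rw [Nat.factorial_succ]
      push_cast
      field_simp
      simp
    · exact (intervalIntegrable_iff_integrableOn_Ioc_of_le hv).1 hint
    · refine (ae_restrict_iff' measurableSet_Ioc).2 (Filter.Eventually.of_forall fun t ht => ?_)
      have : 0 ≤ v - t := by linarith [ht.2]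
      positivity


def Sc (n : ℕ) (r : ℝ) : Set (Fin n → ℝ) := {x | (∀ i, 0 ≤ x i) ∧ ∑ i, x i ≤ r}

theorem Sc_meas (n : ℕ) (r : ℝ) : MeasurableSet (Sc n r) := by
  have h : Sc n r = (⋂ i, {x : Fin n → ℝ | 0 ≤ x i}) ∩ {x | ∑ i, x i ≤ r} := by
    ext x
    simp [Sc]
  rw [h]
  refine (MeasurableSet.iInter fun i => ?_).inter ?_
  · exact measurableSet_le measurable_const (measurable_pi_apply i)
  · exact measurableSet_le (by fun_prop) measurable_const

theorem int_Sc (n : ℕ) (r : ℝ) (hr : 0 ≤ r) :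
    ∫⁻ z in Icc (0 : ℝ) r, ENNReal.ofReal ((r - z) ^ n / n.factorial) =
      ENNReal.ofReal (r ^ (n + 1) / (n + 1).factorial) := by
  have hcont : Continuous fun z : ℝ => (r - z) ^ n / (n.factorial : ℝ) := by fun_prop
  rw [← ofReal_integral_eq_lintegral_ofReal]
  · congr 1
    rw [integral_Icc_eq_integral_Ioc, ← intervalIntegral.integral_of_le hr,
      intervalIntegral.integral_div,
      intervalIntegral.integral_comp_sub_left (fun x => x ^ n) r, integral_pow]
    rw [Nat.factorial_succ]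
    push_cast
    have : (n.factorial : ℝ) ≠ 0 := by positivity
    have h2 : (n : ℝ) + 1 ≠ 0 := by positivity
    field_simp
    simp
  · exact hcont.continuousOn.integrableOn_Icc
  · refine (ae_restrict_iff' measurableSet_Icc).mpr (Filter.Eventually.of_forall fun z hz => ?_)
    have : 0 ≤ r - z := by linarith [hz.2]
    simp only [Pi.zero_apply]
    positivity

theorem vol_Sc (n : ℕ) : ∀ r : ℝ, 0 ≤ r →
    volume (Sc n r) = ENNReal.ofReal (r ^ n / n.factorial) := by
  induction n with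
  | zero =>
    intro r hr
    have h : Sc 0 r = univ := by
      ext x
      simp [Sc, hr]
    rw [h]
    simp [volume_pi]
  | succ n ih =>
    intro r hr
    have hA : MeasurableSet {q : ℝ × (Fin n → ℝ) | 0 ≤ q.1 ∧ (∀ i, 0 ≤ q.2 i) ∧
        q.1 + ∑ i, q.2 i ≤ r} := by
      have h : {q : ℝ × (Fin n → ℝ) | 0 ≤ q.1 ∧ (∀ i, 0 ≤ q.2 i) ∧
        q.1 + ∑ i, q.2 i ≤ r} = {q | 0 ≤ q.1} ∩ ((⋂ i, {q : ℝ × (Fin n → ℝ) | 0 ≤ q.2 i}) ∩
          {q | q.1 + ∑ i, q.2 i ≤ r}) := by
        ext q
        simp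
      rw [h]
      refine (measurableSet_le measurable_const measurable_fst).inter
        ((MeasurableSet.iInter fun i => ?_).inter ?_)
      · exact measurableSet_le measurable_const (by fun_prop)
      · exact measurableSet_le (by fun_prop) measurable_const
    have h1 : volume (Sc (n + 1) r) = volume {q : ℝ × (Fin n → ℝ) | 0 ≤ q.1 ∧ (∀ i, 0 ≤ q.2 i) ∧
        q.1 + ∑ i, q.2 i ≤ r} := by
      rw [← (volume_preserving_piFinSuccAbove (fun _ : Fin (n + 1) => ℝ) 0).measure_preimage
        hA.nullMeasurableSet]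
      congr 1
      ext x
      simp only [Sc, Set.mem_ofPred_eq, Set.mem_preimage]
      rw [Fin.sum_univ_succ, Fin.forall_fin_succ, and_assoc]
      simp [MeasurableEquiv.piFinSuccAbove, Fin.tail]
    rw [h1, Measure.volume_eq_prod, Measure.prod_apply hA, ← int_Sc n r hr,
      ← lintegral_indicator measurableSet_Icc]
    congr 1
    ext z
    by_cases hz : z ∈ Icc (0 : ℝ) r
    · rw [indicator_of_mem hz, ← ih (r - z) (by linarith [hz.2])]
      congr 1
      ext w
      simp only [Sc, Set.mem_ofPred_eq, Set.mem_preimage]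
      constructor
      · rintro ⟨_, h2, h3⟩
        exact ⟨h2, by linarith⟩
      · rintro ⟨h2, h3⟩
        exact ⟨hz.1, h2, by linarith⟩
    · rw [indicator_of_notMem hz]
      have : (Prod.mk z ⁻¹' {q : ℝ × (Fin n → ℝ) | 0 ≤ q.1 ∧ (∀ i, 0 ≤ q.2 i) ∧
        q.1 + ∑ i, q.2 i ≤ r}) = ∅ := by
        ext w
        simp only [Set.mem_ofPred_eq, Set.mem_preimage, Set.mem_empty_iff_false, iff_false]
        rintro ⟨h1, h2, h3⟩
        apply hz
        have h4 : 0 ≤ ∑ i, w i := Finset.sum_nonneg fun i _ => h2 i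
        exact ⟨h1, by linarith⟩
      rw [this, measure_empty]


/-! ### simplices over a finite type -/

theorem vol_pos_simplex (ι : Type) [Fintype ι] (v : ℝ) (hv : 0 ≤ v) :
    volume {s : ι → ℝ | (∀ i, 0 < s i) ∧ ∑ i, s i ≤ v} =
      ENNReal.ofReal (v ^ Fintype.card ι / (Fintype.card ι).factorial) := by
  classical
  have e : Fin (Fintype.card ι) ≃ ι := (Fintype.equivFin ι).symm
  have hmp := volume_measurePreserving_piCongrLeft (fun _ : ι => ℝ) e
  have hms : MeasurableSet {s : ι → ℝ | (∀ i, 0 < s i) ∧ ∑ i, s i ≤ v} := by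
    have h1 : MeasurableSet {s : ι → ℝ | ∀ i, 0 < s i} := by
      rw [show {s : ι → ℝ | ∀ i, 0 < s i} = ⋂ i, {s | 0 < s i} by ext; simp]
      exact MeasurableSet.iInter fun i => measurableSet_lt measurable_const (measurable_pi_apply i)
    have h2 : MeasurableSet {s : ι → ℝ | ∑ i, s i ≤ v} :=
      measurableSet_le (Finset.measurable_sum _ fun i _ => measurable_pi_apply i) measurable_const
    exact h1.inter h2
  rw [← vol_Sx (Fintype.card ι) v hv, ← hmp.measure_preimage hms.nullMeasurableSet]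
  congr 1
  ext x
  have happ : ∀ i, (MeasurableEquiv.piCongrLeft (fun _ : ι => ℝ) e) x (e i) = x i := by
    intro i
    exact Equiv.piCongrLeft_apply_apply (P := fun _ : ι => ℝ) e x i
  have hsum : ∑ i, (MeasurableEquiv.piCongrLeft (fun _ : ι => ℝ) e) x i = ∑ i, x i := by
    rw [← Equiv.sum_comp e]
    exact Finset.sum_congr rfl fun i _ => happ i
  simp only [Set.mem_preimage, Set.mem_ofPred_eq, Sx]
  rw [hsum]
  constructor
  · rintro ⟨h1, h2⟩
    exact ⟨fun i => by rw [← happ i]; exact h1 (e i), h2⟩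
  · rintro ⟨h1, h2⟩
    refine ⟨fun i => ?_, h2⟩
    obtain ⟨j, rfl⟩ := e.surjective i
    rw [happ j]
    exact h1 j

theorem meas_pos (ι : Type) [Fintype ι] (v : ℝ) :
    MeasurableSet {s : ι → ℝ | (∀ i, 0 < s i) ∧ ∑ i, s i ≤ v} := by
  have h1 : MeasurableSet {s : ι → ℝ | ∀ i, 0 < s i} := by
    rw [show {s : ι → ℝ | ∀ i, 0 < s i} = ⋂ i, {s | 0 < s i} by ext; simp]
    exact MeasurableSet.iInter fun i => measurableSet_lt measurable_const (measurable_pi_apply i)
  have h2 : MeasurableSet {s : ι → ℝ | ∑ i, s i ≤ v} :=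
    measurableSet_le (Finset.measurable_sum _ fun i _ => measurable_pi_apply i) measurable_const
  exact h1.inter h2

theorem neg_eq (ι : Type) [Fintype ι] (v : ℝ) :
    {s : ι → ℝ | (∀ i, s i < 0) ∧ -∑ i, s i ≤ v} =
      Neg.neg ⁻¹' {s : ι → ℝ | (∀ i, 0 < s i) ∧ ∑ i, s i ≤ v} := by
  ext s
  simp [Finset.sum_neg_distrib]

theorem meas_neg (ι : Type) [Fintype ι] (v : ℝ) :
    MeasurableSet {s : ι → ℝ | (∀ i, s i < 0) ∧ -∑ i, s i ≤ v} := by
  rw [neg_eq]
  exact measurable_neg (meas_pos ι v)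

theorem vol_neg_simplex (ι : Type) [Fintype ι] (v : ℝ) (hv : 0 ≤ v) :
    volume {s : ι → ℝ | (∀ i, s i < 0) ∧ -∑ i, s i ≤ v} =
      ENNReal.ofReal (v ^ Fintype.card ι / (Fintype.card ι).factorial) := by
  rw [neg_eq, (Measure.measurePreserving_neg (volume : Measure (ι → ℝ))).measure_preimage
    (meas_pos ι v).nullMeasurableSet, vol_pos_simplex ι v hv]

/-! ### the pieces -/

section pieces

variable {n : ℕ}

/-- one orthant piece of `a Δ - b Δ` -/
def PS (a b : ℝ) (S : Finset (Fin n)) : Set (Fin n → ℝ) :=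
  {z | (∀ i ∈ S, 0 < z i) ∧ (∀ i, i ∉ S → z i < 0) ∧ ∑ i ∈ S, z i ≤ a ∧ -∑ i ∈ Sᶜ, z i ≤ b}

theorem PS_eq (a b : ℝ) (S : Finset (Fin n)) : PS a b S =
    (MeasurableEquiv.piEquivPiSubtypeProd (fun _ : Fin n => ℝ) (fun i => i ∈ S)) ⁻¹'
      ({s : {i // i ∈ S} → ℝ | (∀ i, 0 < s i) ∧ ∑ i, s i ≤ a} ×ˢ
        {s : {i // i ∉ S} → ℝ | (∀ i, s i < 0) ∧ -∑ i, s i ≤ b}) := by
  ext z
  have h1 : ∑ i ∈ S, z i = ∑ i : {i // i ∈ S}, z i := (Finset.sum_coe_sort S z).symm
  have h2 : ∑ i ∈ Sᶜ, z i = ∑ i : {i // i ∉ S}, z i :=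
    Finset.sum_subtype Sᶜ (fun x => Finset.mem_compl) z
  unfold PS
  simp only [Set.mem_preimage, Set.mem_prod, Set.mem_ofPred_eq]
  rw [h1, h2]
  constructor
  · rintro ⟨k1, k2, k3, k4⟩
    exact ⟨⟨fun i => k1 i i.2, k3⟩, ⟨fun i => k2 i i.2, k4⟩⟩
  · rintro ⟨⟨k1, k3⟩, ⟨k2, k4⟩⟩
    exact ⟨fun i hi => k1 ⟨i, hi⟩, fun i hi => k2 ⟨i, hi⟩, k3, k4⟩

theorem PS_meas (a b : ℝ) (S : Finset (Fin n)) : MeasurableSet (PS a b S) := by
  rw [PS_eq]
  exact (MeasurableEquiv.measurable _) ((meas_pos _ a).prod (meas_neg _ b))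

theorem PS_vol {a b : ℝ} (ha : 0 ≤ a) (hb : 0 ≤ b) (S : Finset (Fin n)) :
    volume (PS a b S) = ENNReal.ofReal (a ^ S.card / S.card.factorial) *
      ENNReal.ofReal (b ^ (n - S.card) / (n - S.card).factorial) := by
  have hmp := volume_preserving_piEquivPiSubtypeProd (fun _ : Fin n => ℝ) (fun i => i ∈ S)
  have h1 : Fintype.card {i // i ∈ S} = S.card := Fintype.card_coe S
  have h2 : Fintype.card {i // i ∉ S} = n - S.card := by
    rw [Fintype.card_subtype_compl, Fintype.card_fin, h1]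
  rw [PS_eq, hmp.measure_preimage ((meas_pos _ a).prod (meas_neg _ b)).nullMeasurableSet,
    Measure.volume_eq_prod, Measure.prod_prod]
  congr 1
  · have hinst : (Finset.Subtype.fintype S : Fintype {i // i ∈ S}) =
        Subtype.fintype (fun i => i ∈ S) := Subsingleton.elim _ _
    have h3 := vol_pos_simplex {i // i ∈ S} a ha
    rw [h1] at h3
    rw [← hinst]
    exact h3
  · have h3 := vol_neg_simplex {i // i ∉ S} b hb
    rw [h2] at h3
    exact h3

theorem PS_disj (a b : ℝ) {S T : Finset (Fin n)} (h : S ≠ T) : Disjoint (PS a b S) (PS a b T) := by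
  rw [Set.disjoint_left]
  rintro z ⟨h1, h2, -, -⟩ ⟨k1, k2, -, -⟩
  apply h
  ext i
  constructor
  · intro hi
    by_contra hc
    exact absurd (h1 i hi) (not_lt.2 (k2 i hc).le)
  · intro hi
    by_contra hc
    exact absurd (k1 i hi) (not_lt.2 (h2 i hc).le)

/-- the union of the pieces -/
def W (n : ℕ) (a b : ℝ) : Set (Fin n → ℝ) :=
  ⋃ S ∈ (Finset.univ : Finset (Finset (Fin n))), PS a b S

theorem W_vol {a b : ℝ} (ha : 0 ≤ a) (hb : 0 ≤ b) : volume (W n a b) =
    ENNReal.ofReal (∑ i ∈ Finset.range (n + 1), (n.choose i : ℝ) ^ 2 * a ^ i * b ^ (n - i)) *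
      ENNReal.ofReal (1 ^ n / n.factorial) := by
  unfold W
  rw [measure_biUnion_finset (fun S _ T _ h => PS_disj a b h) (fun S _ => PS_meas a b S)]
  have h1 : ∀ S : Finset (Fin n), volume (PS a b S) =
      ENNReal.ofReal (a ^ S.card / S.card.factorial * (b ^ (n - S.card) / (n - S.card).factorial)) := by
    intro S
    rw [PS_vol ha hb, ENNReal.ofReal_mul (by positivity)]
  simp_rw [h1]
  rw [← ENNReal.ofReal_sum_of_nonneg (fun S _ => by positivity), ← ENNReal.ofReal_mul (by positivity)]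
  congr 1
  rw [← Finset.powerset_univ, Finset.sum_powerset_apply_card
    (fun k => a ^ k / (k.factorial : ℝ) * (b ^ (n - k) / ((n - k).factorial : ℝ))),
    Finset.card_univ, Fintype.card_fin, Finset.sum_mul]
  refine Finset.sum_congr rfl fun k hk => ?_
  have hk' : k ≤ n := by
    have := Finset.mem_range.1 hk
    omega
  rw [nsmul_eq_mul]
  have h2 : (n.choose k : ℝ) * k.factorial * (n - k).factorial = n.factorial := by
    exact_mod_cast Nat.choose_mul_factorial_mul_factorial hk'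
  have h3 : (k.factorial : ℝ) ≠ 0 := by positivity
  have h4 : ((n - k).factorial : ℝ) ≠ 0 := by positivity
  have h5 : (n.factorial : ℝ) ≠ 0 := by positivity
  rw [one_pow]
  rw [← h2] at h5 ⊢
  field_simp

/-- decomposition of a vector of a piece -/
theorem W_decomp {a b : ℝ} (ha : 0 ≤ a) (hb : 0 ≤ b) {z : Fin n → ℝ} (hz : z ∈ W n a b) :
    ∃ x ∈ Sc n 1, ∃ y ∈ Sc n 1, z = a • x - b • y := by
  classical
  have scale : ∀ (c : ℝ), 0 ≤ c → ∀ u : Fin n → ℝ, (∀ i, 0 ≤ u i) → ∑ i, u i ≤ c →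
      ∃ x ∈ Sc n 1, u = c • x := by
    intro c hc u hu hs
    rcases hc.eq_or_lt with h | h
    · subst h
      refine ⟨0, ⟨fun i => le_rfl, by simp⟩, ?_⟩
      funext i
      have h1 := (Finset.sum_eq_zero_iff_of_nonneg (fun i _ => hu i)).1
        (le_antisymm hs (Finset.sum_nonneg fun i _ => hu i)) i (Finset.mem_univ i)
      rw [h1]
      simp
    · refine ⟨c⁻¹ • u, ⟨fun i => ?_, ?_⟩, ?_⟩
      · have := hu i
        simp only [Pi.smul_apply, smul_eq_mul]
        positivity
      · simp only [Pi.smul_apply, smul_eq_mul]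
        rw [← Finset.mul_sum, inv_mul_le_iff₀ h, mul_one]
        exact hs
      · rw [smul_smul, mul_inv_cancel₀ h.ne', one_smul]
  unfold W at hz
  simp only [Finset.mem_univ, Set.iUnion_true, Set.mem_iUnion] at hz
  obtain ⟨S, h1, h2, h3, h4⟩ := hz
  obtain ⟨x, hx, hxe⟩ := scale a ha (fun i => if i ∈ S then z i else 0)
    (fun i => by
      show 0 ≤ if i ∈ S then z i else 0
      split_ifs with h
      · exact (h1 i h).le
      · exact le_rfl)
    (by
      rw [← Finset.sum_filter]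
      simpa using h3)
  obtain ⟨y, hy, hye⟩ := scale b hb (fun i => if i ∈ S then 0 else -z i)
    (fun i => by
      show 0 ≤ if i ∈ S then 0 else -z i
      split_ifs with h
      · exact le_rfl
      · have := h2 i h
        linarith)
    (by
      have e : ∑ i, (if i ∈ S then 0 else -z i) = -∑ i ∈ Sᶜ, z i := by
        rw [← Finset.sum_neg_distrib, ← Finset.sum_compl_add_sum S]
        rw [Finset.sum_congr rfl (g := fun i => -z i) (fun i hi => by
          rw [if_neg (Finset.mem_compl.1 hi)])]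
        rw [Finset.sum_congr (s₁ := S) rfl (g := fun _ => (0 : ℝ)) (fun i hi => by
          rw [if_pos hi])]
        simp
      rw [e]
      exact h4)
  refine ⟨x, hx, y, hy, ?_⟩
  rw [← hxe, ← hye]
  funext i
  simp only [Pi.sub_apply]
  split_ifs <;> simp

end pieces

/-! ### the affine map -/

section aff

variable {n : ℕ} (v : Fin (n + 1) → EuclideanSpace ℝ (Fin n))

/-- the linear map of a simplex -/
def Tl : EuclideanSpace ℝ (Fin n) →ₗ[ℝ] EuclideanSpace ℝ (Fin n) :=
  ∑ i : Fin n, (EuclideanSpace.proj (𝕜 := ℝ) i).toLinearMap.smulRight (v i.succ - v 0)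

theorem Tl_apply (x : EuclideanSpace ℝ (Fin n)) : Tl v x = ∑ i, x i • (v i.succ - v 0) := by
  unfold Tl
  simp

theorem hull_sub : convexHull ℝ (Set.range v) ⊆
    v 0 +ᵥ (Tl v '' (WithLp.ofLp ⁻¹' Sc n 1)) := by
  have hconv : Convex ℝ (Sc n 1) := by
    intro x hx y hy s t hs ht hst
    refine ⟨fun i => ?_, ?_⟩
    · have h1 := hx.1 i
      have h2 := hy.1 i
      simp only [Pi.add_apply, Pi.smul_apply, smul_eq_mul]
      positivity
    · simp only [Pi.add_apply, Pi.smul_apply, smul_eq_mul]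
      rw [Finset.sum_add_distrib, ← Finset.mul_sum, ← Finset.mul_sum]
      have h1 := mul_le_mul_of_nonneg_left hx.2 hs
      have h2 := mul_le_mul_of_nonneg_left hy.2 ht
      linarith
  have hconv2 : Convex ℝ (WithLp.ofLp ⁻¹' Sc n 1 : Set (EuclideanSpace ℝ (Fin n))) := by
    intro x hx y hy s t hs ht hst
    exact hconv hx hy hs ht hst
  refine convexHull_min ?_ ((hconv2.linear_image (Tl v)).vadd (v 0))
  rintro _ ⟨i, rfl⟩
  refine Fin.cases ?_ (fun j => ?_) i
  · rw [Set.mem_vadd_set]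
    refine ⟨0, ⟨0, ⟨fun i => le_rfl, by simp⟩, map_zero _⟩, by simp⟩
  · rw [Set.mem_vadd_set]
    refine ⟨v j.succ - v 0, ⟨EuclideanSpace.single j (1 : ℝ), ⟨fun i => ?_, ?_⟩, ?_⟩, by simp⟩
    · rw [PiLp.single_apply]
      split_ifs <;> norm_num
    · simp
    · rw [Tl_apply]
      rw [Finset.sum_eq_single j]
      · simp
      · intro k _ hk
        simp [hk]
      · intro h
        exact absurd (Finset.mem_univ j) h

theorem sub_hull {x : EuclideanSpace ℝ (Fin n)} (hx : WithLp.ofLp x ∈ Sc n 1) :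
    v 0 + Tl v x ∈ convexHull ℝ (Set.range v) := by
  obtain ⟨h1, h2⟩ := hx
  have e : v 0 + Tl v x = ∑ i : Fin (n + 1),
      (Fin.cons (1 - ∑ j, x j) (fun j => x j) : Fin (n + 1) → ℝ) i • v i := by
    rw [Fin.sum_univ_succ, Tl_apply]
    simp only [Fin.cons_zero, Fin.cons_succ]
    rw [sub_smul, one_smul, Finset.sum_smul]
    simp_rw [smul_sub]
    rw [Finset.sum_sub_distrib]
    abel
  rw [e]
  refine (convex_convexHull ℝ _).sum_mem ?_ ?_ ?_
  · intro i _
    refine Fin.cases ?_ (fun j => ?_) i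
    · simp only [Fin.cons_zero]
      exact sub_nonneg.2 h2
    · simp only [Fin.cons_succ]
      exact h1 j
  · rw [Fin.sum_univ_succ]
    simp
  · intro i _
    exact subset_convexHull ℝ _ ⟨i, rfl⟩

theorem sub_diff {a b : ℝ} (ha : 0 ≤ a) (hb : 0 ≤ b) :
    (a - b) • v 0 +ᵥ (Tl v '' (WithLp.ofLp ⁻¹' W n a b)) ⊆
      a • convexHull ℝ (Set.range v) - b • convexHull ℝ (Set.range v) := by
  intro p hp
  rw [Set.mem_vadd_set] at hp
  obtain ⟨q, ⟨z, hz, rfl⟩, rfl⟩ := hp
  obtain ⟨x, hx, y, hy, hxy⟩ := W_decomp ha hb hz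
  rw [Set.mem_sub]
  refine ⟨a • (v 0 + Tl v (WithLp.toLp 2 x)), Set.smul_mem_smul_set (sub_hull v hx),
    b • (v 0 + Tl v (WithLp.toLp 2 y)), Set.smul_mem_smul_set (sub_hull v hy), ?_⟩
  have e : z = a • (WithLp.toLp 2 x : EuclideanSpace ℝ (Fin n)) - b • WithLp.toLp 2 y := by
    ext i
    have := congrFun hxy i
    simpa using this
  rw [e, map_sub, map_smul, map_smul, vadd_eq_add, sub_smul, smul_add, smul_add]
  abel

end aff

theorem W_meas (n : ℕ) (a b : ℝ) : MeasurableSet (W n a b) :=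
  Finset.measurableSet_biUnion _ fun S _ => PS_meas a b S

theorem t_SIMPLEX : Pool.Agent.TH984.GB.S_SIMPLEX := by
  intro n v _ a b ha hb
  have hmp := PiLp.volume_preserving_ofLp (Fin n)
  have hK : volume (convexHull ℝ (Set.range v)) ≤
      ENNReal.ofReal |LinearMap.det (Tl v)| * ENNReal.ofReal (1 ^ n / n.factorial) := by
    refine (measure_mono (hull_sub v)).trans (le_of_eq ?_)
    rw [measure_vadd, Measure.addHaar_image_linearMap,
      hmp.measure_preimage (Sc_meas n 1).nullMeasurableSet, vol_Sc n 1 zero_le_one]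
  have hD : ENNReal.ofReal |LinearMap.det (Tl v)| *
      (ENNReal.ofReal (∑ i ∈ Finset.range (n + 1), (n.choose i : ℝ) ^ 2 * a ^ i * b ^ (n - i)) *
        ENNReal.ofReal (1 ^ n / n.factorial)) ≤
      volume (a • convexHull ℝ (Set.range v) - b • convexHull ℝ (Set.range v)) := by
    refine le_trans (le_of_eq ?_) (measure_mono (sub_diff v ha hb))
    rw [measure_vadd, Measure.addHaar_image_linearMap,
      hmp.measure_preimage (W_meas n a b).nullMeasurableSet, W_vol ha hb]
  refine (mul_le_mul_right hK _).trans ?_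
  refine le_trans (le_of_eq ?_) hD
  ring

end Pool.Agent.TH984.GBS

end
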